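import Mathlib
import Pool.Agent.TH899.UG.TD2
import Pool.Agent.TH899.UG.BoxP

/-! Four large classes of positions with all cross differences in a set of more than two thirds of
`{1, ..., H}` (adapted from `Pool.Agent.TH899.UG.TD4`, without conditions modulo `3`). -/

set_option autoImplicit false

namespace Pool.Agent.Helper162_cun

open Finset Filter
open Pool.Agent.TH899.UG Pool.Agent.TH899.UG.TD

/-- quadruples with all differences in `B` -/
def PP4 (B : Finset ℕ) (f : Fin 4 → ℕ) : Prop :=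
  ∀ g g', g < g' → f g < f g' ∧ f g' - f g ∈ B

theorem pp4 (B : Finset ℕ) (y u v w : ℕ) (h1 : 0 < u) (h2 : u < v) (h3 : v < w) (hw : w ∈ B)
    (hu : u ∈ B) (hv : v ∈ B) (hvu : v - u ∈ B) (hwu : w - u ∈ B) (hwv : w - v ∈ B) :
    PP4 B ![3 * y, 3 * y + u, 3 * y + v, 3 * y + w] := by
  have h4 : ∀ g : Fin 4, g = 0 ∨ g = 1 ∨ g = 2 ∨ g = 3 := by decide
  have f0 : (![3 * y, 3 * y + u, 3 * y + v, 3 * y + w] : Fin 4 → ℕ) 0 = 3 * y := rfl
  have f1 : (![3 * y, 3 * y + u, 3 * y + v, 3 * y + w] : Fin 4 → ℕ) 1 = 3 * y + u := rfl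
  have f2 : (![3 * y, 3 * y + u, 3 * y + v, 3 * y + w] : Fin 4 → ℕ) 2 = 3 * y + v := rfl
  have f3 : (![3 * y, 3 * y + u, 3 * y + v, 3 * y + w] : Fin 4 → ℕ) 3 = 3 * y + w := rfl
  intro g g' h
  rcases h4 g with rfl | rfl | rfl | rfl <;> rcases h4 g' with rfl | rfl | rfl | rfl <;>
    first
      | exact absurd h (by decide)
      | skip
  · rw [f0, f1]
    refine ⟨by omega, ?_⟩
    rw [Nat.add_sub_cancel_left]; exact hu
  · rw [f0, f2]
    refine ⟨by omega, ?_⟩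
    rw [Nat.add_sub_cancel_left]; exact hv
  · rw [f0, f3]
    refine ⟨by omega, ?_⟩
    rw [Nat.add_sub_cancel_left]; exact hw
  · rw [f1, f2]
    refine ⟨by omega, ?_⟩
    rw [Nat.add_sub_add_left]; exact hvu
  · rw [f1, f3]
    refine ⟨by omega, ?_⟩
    rw [Nat.add_sub_add_left]; exact hwu
  · rw [f2, f3]
    refine ⟨by omega, ?_⟩
    rw [Nat.add_sub_add_left]; exact hwv

open Classical in
theorem emb4 (H c : ℕ) (B : Finset ℕ) : H * (QQ H B c).card ≤
    ((Fintype.piFinset (fun _ : Fin 4 => range (5 * H))).filter (fun f => PP4 B f)).card := by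
  have h0 : ((range H) ×ˢ (QQ H B c)).card = H * (QQ H B c).card := by
    rw [card_product, card_range]
  rw [← h0]
  refine card_le_card_of_injOn (fun z : ℕ × ℕ × ℕ × ℕ =>
    (![3 * z.1, 3 * z.1 + z.2.2.1, 3 * z.1 + z.2.2.2, 3 * z.1 + z.2.1] : Fin 4 → ℕ)) ?_ ?_
  · rintro ⟨y, w, u, v⟩ hz
    obtain ⟨hy, hq⟩ := mem_product.1 (mem_coe.1 hz)
    obtain ⟨hq1, q1, q2, q3, q4, q5, q6, q7, q8, q9, q10, q11⟩ := mem_filter.1 hq
    obtain ⟨hw', hq2⟩ := mem_product.1 hq1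
    obtain ⟨hu', hv'⟩ := mem_product.1 hq2
    have hy' := mem_range.1 hy
    simp only at hy' hw' hu' hv' q1 q2 q3 q4 q5 q6 q7 q8 q9 q10 q11
    have hw'' := mem_Icc.1 hw'
    have hu'' := mem_Icc.1 hu'
    have hv'' := mem_Icc.1 hv'
    have hpp := pp4 B y u v w (by omega) q1 q2 q3 q4 q5 q6 q7 q8
    refine mem_coe.2 (mem_filter.2 ⟨Fintype.mem_piFinset.2 ?_, hpp⟩)
    have h4 : ∀ g : Fin 4, g = 0 ∨ g = 1 ∨ g = 2 ∨ g = 3 := by decide
    intro g
    rw [mem_range]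
    rcases h4 g with rfl | rfl | rfl | rfl
    · show 3 * y < 5 * H
      omega
    · show 3 * y + u < 5 * H
      omega
    · show 3 * y + v < 5 * H
      omega
    · show 3 * y + w < 5 * H
      omega
  · rintro ⟨y, w, u, v⟩ _ ⟨y', w', u', v'⟩ _ h
    have e0 : 3 * y = 3 * y' := congrFun h 0
    have e1 : 3 * y + u = 3 * y' + u' := congrFun h 1
    have e2 : 3 * y + v = 3 * y' + v' := congrFun h 2
    have e3 : 3 * y + w = 3 * y' + w' := congrFun h 3
    have a0 : y = y' := by omega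
    have a1 : u = u' := by omega
    have a2 : v = v' := by omega
    have a3 : w = w' := by omega
    rw [a0, a1, a2, a3]

/-- four classes of `K` positions with all cross differences in `B` -/
theorem comb (K : ℕ) (e : ℝ) (he0 : 0 < e) (he1 : e ≤ 1) : ∃ C : ℕ, ∀ H : ℕ, C ≤ H →
    ∀ B : Finset ℕ, B ⊆ Icc 1 H → (2 / 3 + e) * (H : ℝ) ≤ B.card →
    ∃ A : Fin 4 → Fin K → ℕ, (∀ g, Function.Injective (A g)) ∧
      (∀ g g' : Fin 4, g < g' → ∀ i j, A g i < A g' j ∧ A g' j - A g i ∈ B) ∧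
      ∀ g i, A g i < 5 * H := by
  classical
  obtain ⟨C₁, E, hC₁, HB⟩ := box_pow K 4
  obtain ⟨ε₂, hε₂⟩ : ∃ ε₂ : ℝ, ε₂ = (e / 16) ^ 3 / 625 := ⟨_, rfl⟩
  have hε₂0 : 0 < ε₂ := by rw [hε₂]; positivity
  have hε₂1 : ε₂ ≤ 1 := by
    have h1 : (e / 16) ^ 3 ≤ 1 := pow_le_one₀ (by positivity) (by linarith)
    rw [hε₂]; linarith
  obtain ⟨R₁, hR₁⟩ := exists_nat_ge (C₁ / ε₂ ^ E)
  obtain ⟨R₂, hR₂⟩ := exists_nat_ge (16 / e)
  refine ⟨R₁ + R₂ + 40, fun H hCH B hBI hBr => ?_⟩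
  have hH0 : (0 : ℝ) ≤ H := Nat.cast_nonneg _
  have hR1H : C₁ / ε₂ ^ E ≤ (H : ℝ) := hR₁.trans (by exact_mod_cast (by omega : R₁ ≤ H))
  have hR2H : 16 / e ≤ (H : ℝ) := hR₂.trans (by exact_mod_cast (by omega : R₂ ≤ H))
  have heH : 16 ≤ e * H := by
    rw [div_le_iff₀ he0] at hR2H
    linarith
  obtain ⟨R, hR⟩ : ∃ R, R = ⌊e * H / 8⌋₊ := ⟨_, rfl⟩
  have hRu : (R : ℝ) ≤ e * H / 8 := by rw [hR]; exact Nat.floor_le (by positivity)
  have hRl : e * H / 16 ≤ (R : ℝ) := by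
    have h1 : e * H / 8 < (R : ℝ) + 1 := by rw [hR]; exact Nat.lt_floor_add_one _
    linarith
  have hR1 : 1 ≤ R := by
    have h1 : (1 : ℝ) ≤ R := by linarith
    exact_mod_cast h1
  obtain ⟨c, hc, hq⟩ := quad H R R hR1 B hBI (by
    have h1 : (2 * H + 9 * R + 3 * R + 20 : ℝ) ≤ 3 * B.card := by nlinarith
    exact_mod_cast h1)
  have hcount : ε₂ * ∏ i : Fin 4, (((fun _ : Fin 4 => range (5 * H)) i).card : ℝ) ≤
      (((Fintype.piFinset (fun _ : Fin 4 => range (5 * H))).filter (fun f => PP4 B f)).card : ℝ) := by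
    have h1 : ∏ i : Fin 4, (((fun _ : Fin 4 => range (5 * H)) i).card : ℝ) = (5 * H) ^ 4 := by
      simp only [card_range, prod_const, card_univ, Fintype.card_fin]
      push_cast
      ring
    rw [h1]
    have h2 : (H : ℝ) * (QQ H B c).card ≤
      (((Fintype.piFinset (fun _ : Fin 4 => range (5 * H))).filter (fun f => PP4 B f)).card : ℝ) := by
      exact_mod_cast emb4 H c B
    refine le_trans ?_ h2
    have h3 : (R : ℝ) * (R * R) ≤ (QQ H B c).card := by exact_mod_cast hq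
    have h4 : (e * H / 16) ^ 3 ≤ (R : ℝ) ^ 3 := by gcongr
    have h5 : (R : ℝ) ^ 3 = R * (R * R) := by ring
    have h6 : ε₂ * (5 * (H : ℝ)) ^ 4 = H * (e * H / 16) ^ 3 := by rw [hε₂]; ring
    rw [h6]
    exact mul_le_mul_of_nonneg_left (by linarith) hH0
  obtain ⟨Af, hA1, hA2⟩ := HB ε₂ hε₂0 hε₂1 ℕ (fun _ : Fin 4 => range (5 * H)) (fun i => by
    simp only [card_range]
    push_cast
    linarith) _ (filter_subset _ _) hcount
  refine ⟨Af, hA1, ?_, ?_⟩
  · intro g g' hgg i j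
    have h1 := (mem_filter.1 (hA2 (Function.update (fun _ => i) g' j))).2 g g' hgg
    simp only [Function.update_self, Function.update_of_ne hgg.ne] at h1
    exact h1
  · intro g i
    have h1 := Fintype.mem_piFinset.1 (mem_filter.1 (hA2 (fun _ => i))).1 g
    exact mem_range.1 h1

end Pool.Agent.Helper162_cun
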